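import Pool.Agent.H303.DEG.Glob
import Pool.Agent.H303.DEE.T0
import Pool.Agent.H303.DEE.T1
import Pool.Agent.H303.DEE.T2
import Pool.Agent.H303.DEE.T3
import Pool.Agent.H303.DEE.T4
import Pool.Agent.H303.DEE.T5
import Pool.Agent.H303.DEE.T6
import Pool.Agent.H303.DEE.T7
import Pool.Agent.H303.DEE.T8
import Pool.Agent.H303.DEE.T9
import Pool.Agent.H303.DEE.S1
import Pool.Agent.H303.DEE.S2
import Pool.Agent.H303.DEE.S3
import Pool.Agent.H303.DEE.S5
import Pool.Agent.H303.DEE.S6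
import Pool.Agent.H303.DEE.S7
import Pool.Agent.H303.DEE.S8
import Pool.Agent.H303.DEE.S9
import Pool.Agent.H303.DEE.S10
import Pool.Agent.H303.DEE.Leray

/-!
# Energy equality of Leray-Hopf solutions: Navier-Stokes equations with an odd dispersion

Let `n ≥ 3` be odd, `ν > 0` and `α₁, α₂, α₃` nonzero real numbers, of any size and sign. We consider
the three-dimensional periodic Navier-Stokes equations with the additional skew-adjoint term
`∑_j α_j ∂_j^n u`,

  `∂ₜ u + (u · ∇) u + ∇ p = ν Δ u + ∑_j α_j ∂_j^n u`,  `div u = 0`,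

and their Leray-Hopf solutions (`IsLerayHopf`: weakly continuous in time with values in `L²_σ`, the
gradient square integrable in space-time, the equation in the sense of distributions, and the
energy inequality at all times). The additional term does no work.

1. `SmoothData`: if the initial value is smooth, then there is exactly one Leray-Hopf solution; it
   is smooth and satisfies the energy equality at all times.
2. `H1Data`: for all initial values in `H¹_σ` there is exactly one Leray-Hopf solution; it satisfies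
   the energy equality at all times.
3. `L2Data`: for all initial values in `L²_σ` there is a Leray-Hopf solution with the strong energy
   inequality (`IsStrong`), and all such solutions satisfy the energy equality at all times.
4. `GenericData`: for generic initial values in `L²_σ` (a dense `Gδ` subset, which contains the
   smooth fields) there is exactly one Leray-Hopf solution (with or without the strong energy
   inequality); it satisfies the energy equality at all times.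

The proof uses the a priori bounds of theorem `MP_6bf1e5_an.OddDispersion` (global regularity for
smooth data; `Pool.Agent.H226.DE` and `Pool.Agent.H259.ND`), which bound the norm in `H¹` at all
times by the norm in `H¹` of the initial value (`Pool.Agent.H303.DEG`), and the energy of the
difference of a Leray-Hopf solution and a smooth solution (`Pool.Agent.H303.DEE`), with constants
which depend only on the norm of the smooth initial value in `H¹`. Existence for all initial values in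
`L²_σ` is proved by compactness, as in Leray's theorem, from the smooth solutions.
-/

open MeasureTheory Set Filter Topology
open scoped ContDiff ENNReal
open Pool.Agent.H303.DEE (V Q Periodic partialD IsSol Smooth Test t0 t1 t2 t3 t4 t5 t6 t7 t8 t9 s1 s2
  s3 s5 s6 s7 s8 s9 s10)

namespace Pool.Agent.Results.MP_a38b17_an.DispersiveEnergy

/-! ### Definitions (`V`, `Q`, `Periodic`, `partialD`, `IsSol`, `Smooth`, `Test` are in
`Pool.Agent.H303.DEE.Defs`) -/

/-- The gradient of a smooth field: `gradient v t x i j = ∂_j v_i (t, x)`. -/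
noncomputable def gradient (v : ℝ → V → V) (t : ℝ) (x : V) (i j : Fin 3) : ℝ :=
  partialD 1 j (fun y => v t y i) x

/-- `∫_Q |v|²`. -/
noncomputable def energy (v : V → V) : ℝ := ∫ x in Q, ∑ i, v x i ^ 2

/-- `∫_0^t ∫_Q |G|²`. -/
noncomputable def dissipation (G : ℝ → V → Fin 3 → Fin 3 → ℝ) (t : ℝ) : ℝ :=
  ∫ s in (0 : ℝ)..t, ∫ x in Q, ∑ i, ∑ j, G s x i j ^ 2

/-- `∫_Q v · w`. -/
noncomputable def inner (v w : V → V) : ℝ := ∫ x in Q, ∑ i, v x i * w x i

/-- The divergence of `v` is zero (in the sense of periodic distributions). -/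
def DivFree (v : V → V) : Prop := ∀ ψ : V → ℝ, ContDiff ℝ ∞ ψ → Periodic ψ →
  ∫ x in Q, ∑ j, v x j * partialD 1 j ψ x = 0

/-- `g i j = ∂_j v_i` (in the sense of periodic distributions). -/
def WeakGrad (v : V → V) (g : V → Fin 3 → Fin 3 → ℝ) : Prop := ∀ ψ : V → ℝ, ContDiff ℝ ∞ ψ →
  Periodic ψ → ∀ i j, ∫ x in Q, v x i * partialD 1 j ψ x = -∫ x in Q, g x i j * ψ x

/-- The integrand of the weak formulation, for the test field `φ`, at the time `s`:
`u · ∂ₜφ + (u ⊗ u) : ∇φ - ν G : ∇φ - ∑_j α_j u · ∂_j^n φ` (`n` is odd). -/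
noncomputable def integrand (n : ℕ) (ν : ℝ) (α : Fin 3 → ℝ) (u : ℝ → V → V)
    (G : ℝ → V → Fin 3 → Fin 3 → ℝ) (φ : ℝ → V → V) (s : ℝ) (x : V) : ℝ :=
  (∑ i, u s x i * deriv (fun r => φ r x i) s)
    + (∑ i, ∑ j, u s x i * u s x j * partialD 1 j (fun y => φ s y i) x)
    - ν * (∑ i, ∑ j, G s x i j * partialD 1 j (fun y => φ s y i) x)
    - ∑ i, ∑ j, α j * (u s x i * partialD n j (fun y => φ s y i) x)

/-- `u` is a Leray-Hopf solution on `[0, T]` with the initial value `u₀` of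
`∂ₜ uᵢ + ∑_j u_j ∂_j uᵢ = ν ∑_j ∂_j² uᵢ + ∑_j α_j ∂_j^n uᵢ - ∂ᵢ p`, `div u = 0` (`n` odd), periodic
in `x` with the period cell `Q` (only the values in `Q` matter): `u(t) ∈ L²(Q)` for all
`t ∈ [0, T]`, the gradient `G i j = ∂_j u_i` is in `L²((0, T) × Q)`, the divergence is zero, the
equation holds in the sense of distributions against test fields with divergence zero, between the
times `0` and `t`, for all `t ∈ [0, T]` (in particular `u` is weakly continuous in time), and for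
all `t ∈ [0, T]` the energy inequality holds. -/
structure IsLerayHopf (n : ℕ) (ν : ℝ) (α : Fin 3 → ℝ) (T : ℝ) (u₀ : V → V) (u : ℝ → V → V)
    (G : ℝ → V → Fin 3 → Fin 3 → ℝ) : Prop where
  meas_u : Measurable fun z : ℝ × V => u z.1 z.2
  meas_G : Measurable fun z : ℝ × V => G z.1 z.2
  l2_u : ∀ t ∈ Icc 0 T, ∀ i, MemLp (fun x => u t x i) 2 (volume.restrict Q)
  l2_G : ∀ i j, MemLp (fun z : ℝ × V => G z.1 z.2 i j) 2 (volume.restrict (Icc 0 T ×ˢ Q))
  divfree : ∀ t ∈ Icc 0 T, DivFree (u t)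
  grad : ∀ᵐ t ∂(volume.restrict (Icc 0 T)), WeakGrad (u t) (G t)
  weak : ∀ φ, Test φ → ∀ t ∈ Icc 0 T, inner (u t) (φ t) - inner u₀ (φ 0)
    = ∫ s in (0 : ℝ)..t, ∫ x in Q, integrand n ν α u G φ s x
  energy_le : ∀ t ∈ Icc 0 T, (1 / 2) * energy (u t) + ν * dissipation G t ≤ (1 / 2) * energy u₀

/-- The energy equality at the time `t`. -/
def EnergyEq (ν : ℝ) (u₀ : V → V) (u : ℝ → V → V) (G : ℝ → V → Fin 3 → Fin 3 → ℝ) (t : ℝ) : Prop :=
  (1 / 2) * energy (u t) + ν * dissipation G t = (1 / 2) * energy u₀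

/-- A Leray-Hopf solution which can be restarted at almost every time: for almost every
`s ∈ (0, T)` also `t ↦ u (s + t)` is a Leray-Hopf solution on `[0, T - s]`, with the initial value
`u(s)`; that is, `u` satisfies the strong energy inequality. -/
def IsStrong (n : ℕ) (ν : ℝ) (α : Fin 3 → ℝ) (T : ℝ) (u₀ : V → V) (u : ℝ → V → V)
    (G : ℝ → V → Fin 3 → Fin 3 → ℝ) : Prop :=
  IsLerayHopf n ν α T u₀ u G ∧ ∀ᵐ s ∂(volume.restrict (Icc 0 T)),
    IsLerayHopf n ν α (T - s) (u s) (fun t => u (s + t)) (fun t => G (s + t))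

/-- `f` is in `H¹_σ` on the torus, with the gradient `g i j = ∂_j f_i`. -/
structure H1sigma (f : V → V) (g : V → Fin 3 → Fin 3 → ℝ) : Prop where
  l2 : ∀ i, MemLp (fun x => f x i) 2 (volume.restrict Q)
  l2g : ∀ i j, MemLp (fun x => g x i j) 2 (volume.restrict Q)
  div : DivFree f
  grad : WeakGrad f g

/-- `f` is in the space `L²_σ`: it is square integrable in `Q` and a limit in `L²(Q)³` of smooth
periodic fields with divergence zero. -/
def L2sigma (f : V → V) : Prop := (∀ i, MemLp (fun x => f x i) 2 (volume.restrict Q)) ∧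
  ∀ ε : ℝ, 0 < ε → ∃ v : V → V, Smooth v ∧ energy (f - v) ≤ ε

/-- `𝒰` is a subset of `L²_σ` and relatively open in it, for the norm of `L²(Q)³`. -/
def L2Open (𝒰 : Set (V → V)) : Prop := (∀ f ∈ 𝒰, L2sigma f) ∧
  ∀ f ∈ 𝒰, ∃ r : ℝ, 0 < r ∧ ∀ g : V → V, L2sigma g → energy (g - f) < r → g ∈ 𝒰

/-- Any two Leray-Hopf solutions on `[0, T]` with the initial value `u₀` are equal. -/
def Unique (n : ℕ) (ν : ℝ) (α : Fin 3 → ℝ) (T : ℝ) (u₀ : V → V) : Prop :=
  ∀ (u u' : ℝ → V → V) (G G' : ℝ → V → Fin 3 → Fin 3 → ℝ),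
    IsLerayHopf n ν α T u₀ u G → IsLerayHopf n ν α T u₀ u' G' →
      ∀ t ∈ Icc 0 T, u' t =ᵐ[volume.restrict Q] u t

/-- There is a Leray-Hopf solution on `[0, T]` with the initial value `u₀`. -/
def Solvable (n : ℕ) (ν : ℝ) (α : Fin 3 → ℝ) (T : ℝ) (u₀ : V → V) : Prop :=
  ∃ (u : ℝ → V → V) (G : ℝ → V → Fin 3 → Fin 3 → ℝ), IsLerayHopf n ν α T u₀ u G

/-- All Leray-Hopf solutions with the initial value `u₀` satisfy the energy equality, at all
times. -/
def EnergyEquality (n : ℕ) (ν : ℝ) (α : Fin 3 → ℝ) (T : ℝ) (u₀ : V → V) : Prop :=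
  ∀ (u : ℝ → V → V) (G : ℝ → V → Fin 3 → Fin 3 → ℝ), IsLerayHopf n ν α T u₀ u G →
    ∀ t ∈ Icc 0 T, EnergyEq ν u₀ u G t

/-- Smooth initial values: there is a smooth solution `v` for all times, it is a Leray-Hopf
solution, and all Leray-Hopf solutions are equal to it. -/
def SmoothData (n : ℕ) (ν : ℝ) (α : Fin 3 → ℝ) : Prop :=
  ∀ u₀ : V → V, Smooth u₀ → ∃ (v : ℝ → V → V) (p : ℝ → V → ℝ),
    IsSol n ν α (Ici 0) v p ∧ v 0 = u₀ ∧ ∀ T : ℝ,
      IsLerayHopf n ν α T u₀ (fun t => v (max t 0)) (fun t => gradient v (max t 0)) ∧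
      (∀ (u : ℝ → V → V) (G : ℝ → V → Fin 3 → Fin 3 → ℝ), IsLerayHopf n ν α T u₀ u G →
        (∀ t ∈ Icc 0 T, u t =ᵐ[volume.restrict Q] v t) ∧
        ∀ᵐ z ∂(volume.restrict (Icc 0 T ×ˢ Q)), ∀ i j, G z.1 z.2 i j = gradient v z.1 z.2 i j) ∧
      EnergyEquality n ν α T u₀

/-- Initial values in `H¹_σ` (with the gradient `g₀`). -/
def H1Data (n : ℕ) (ν : ℝ) (α : Fin 3 → ℝ) : Prop :=
  ∀ (T : ℝ) (u₀ : V → V) (g₀ : V → Fin 3 → Fin 3 → ℝ), H1sigma u₀ g₀ →
    EnergyEquality n ν α T u₀ ∧ Unique n ν α T u₀ ∧ Solvable n ν α T u₀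

/-- Initial values in `L²_σ`: there is a Leray-Hopf solution with the strong energy inequality, and
all such solutions satisfy the energy equality at all times. -/
def L2Data (n : ℕ) (ν : ℝ) (α : Fin 3 → ℝ) : Prop :=
  ∀ (T : ℝ) (u₀ : V → V), L2sigma u₀ →
    (∃ (u : ℝ → V → V) (G : ℝ → V → Fin 3 → Fin 3 → ℝ), IsStrong n ν α T u₀ u G) ∧
    ∀ (u : ℝ → V → V) (G : ℝ → V → Fin 3 → Fin 3 → ℝ),
      IsStrong n ν α T u₀ u G → ∀ t ∈ Icc 0 T, EnergyEq ν u₀ u G t

/-- Generic initial values in `L²_σ`: there are open subsets `𝒰 m` of `L²_σ` which contain all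
smooth fields (so they are dense), such that the following holds for all `u₀` in the intersection
of all the `𝒰 m`. -/
def GenericData (n : ℕ) (ν : ℝ) (α : Fin 3 → ℝ) : Prop :=
  ∃ 𝒰 : ℕ → Set (V → V), (∀ m, L2Open (𝒰 m)) ∧ (∀ m, ∀ v : V → V, Smooth v → v ∈ 𝒰 m) ∧
    ∀ u₀ : V → V, (∀ m, u₀ ∈ 𝒰 m) → ∀ T : ℝ,
      EnergyEquality n ν α T u₀ ∧ Unique n ν α T u₀ ∧ Solvable n ν α T u₀

/-! ### The definitions above and those of the files with the proofs -/

lemma lh_iff {n : ℕ} {ν : ℝ} {α : Fin 3 → ℝ} {T : ℝ} {u₀ : V → V} {u : ℝ → V → V}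
    {G : ℝ → V → Fin 3 → Fin 3 → ℝ} :
    IsLerayHopf n ν α T u₀ u G ↔ Pool.Agent.H303.DEE.IsLerayHopf n ν α T u₀ u G :=
  ⟨fun h => ⟨h.meas_u, h.meas_G, h.l2_u, h.l2_G, h.divfree, h.grad, h.weak, h.energy_le⟩,
    fun h => ⟨h.meas_u, h.meas_G, h.l2_u, h.l2_G, h.divfree, h.grad, h.weak, h.energy⟩⟩

lemma h1_iff {f : V → V} {g : V → Fin 3 → Fin 3 → ℝ} (h : H1sigma f g) :
    Pool.Agent.H303.DEE.H1s f g := ⟨h.l2, h.l2g, h.div, h.grad⟩

lemma strong_iff {n : ℕ} {ν : ℝ} {α : Fin 3 → ℝ} {T : ℝ} {u₀ : V → V} {u : ℝ → V → V}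
    {G : ℝ → V → Fin 3 → Fin 3 → ℝ} (h : IsStrong n ν α T u₀ u G) :
    Pool.Agent.H303.DEE.IsStrong n ν α T u₀ u G :=
  ⟨lh_iff.1 h.1, h.2.mono fun _ hs => lh_iff.1 hs⟩

/-- the measure on the cell -/
noncomputable abbrev mQ : Measure V := volume.restrict Q

lemma memLp_V {f : V → V} (h : ∀ i, MemLp (fun x => f x i) 2 mQ) : MemLp f 2 mQ :=
  memLp_pi_iff.2 h

lemma smooth_memLp {v : V → V} (h : Smooth v) (i : Fin 3) : MemLp (fun x => v x i) 2 mQ := by
  have hc : Continuous fun x => v x i := (contDiff_pi.1 h.smooth i).continuous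
  refine (memLp_two_iff_integrable_sq hc.aestronglyMeasurable).2 ?_
  exact (hc.pow 2).continuousOn.integrableOn_compact isCompact_Icc

lemma smooth_L2 {v : V → V} (h : Smooth v) : L2sigma v :=
  ⟨smooth_memLp h, fun ε hε => ⟨v, h, by simp [energy, hε.le]⟩⟩

lemma norm_sq_le_energy {f : V → V} (h : ∀ i, MemLp (fun x => f x i) 2 mQ) :
    ‖(memLp_V h).toLp f‖ ^ 2 ≤ energy f := by
  have hV := memLp_V h
  have h2 : ∀ i, Integrable (fun x => f x i ^ 2) mQ := fun i => (h i).integrable_sq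
  have h1 : ‖hV.toLp f‖ ^ 2 = ∫ x, ‖f x‖ ^ 2 ∂mQ := by
    rw [Lp.norm_toLp, hV.eLpNorm_eq_integral_rpow_norm (by norm_num) (by norm_num)]
    have h3 : 0 ≤ ∫ x, ‖f x‖ ^ 2 ∂mQ := integral_nonneg fun x => by positivity
    simp only [ENNReal.toReal_ofNat, Real.rpow_ofNat]
    rw [ENNReal.toReal_ofReal (by positivity), ← Real.rpow_natCast, ← Real.rpow_mul h3]
    norm_num
  rw [h1]
  refine integral_mono ?_ (integrable_finsetSum _ fun i _ => h2 i) fun x => ?_
  · exact (memLp_two_iff_integrable_sq_norm hV.1).1 hV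
  · have h4 : ‖f x‖ ≤ Real.sqrt (∑ i, f x i ^ 2) := by
      rw [pi_norm_le_iff_of_nonneg (Real.sqrt_nonneg _)]
      intro i
      refine Real.le_sqrt_of_sq_le ?_
      rw [Real.norm_eq_abs, sq_abs]
      exact Finset.single_le_sum (f := fun i => f x i ^ 2) (fun j _ => sq_nonneg _)
        (Finset.mem_univ i)
    have h5 : 0 ≤ ∑ i, f x i ^ 2 := Finset.sum_nonneg fun i _ => sq_nonneg _
    calc ‖f x‖ ^ 2 ≤ Real.sqrt (∑ i, f x i ^ 2) ^ 2 := by gcongr
      _ = _ := Real.sq_sqrt h5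

lemma norm_toLp_sub {f g : V → V} (hf : ∀ i, MemLp (fun x => f x i) 2 mQ)
    (hg : ∀ i, MemLp (fun x => g x i) 2 mQ) {r : ℝ} (hr : 0 ≤ r) (h : energy (g - f) < r ^ 2) :
    ‖(memLp_V hg).toLp g - (memLp_V hf).toLp f‖ < r := by
  have hgf : ∀ i, MemLp (fun x => (g - f) x i) 2 mQ := fun i => (hg i).sub (hf i)
  have e : (memLp_V hg).toLp g - (memLp_V hf).toLp f = (memLp_V hgf).toLp (g - f) :=
    (MemLp.toLp_sub _ _).symm
  rw [e]
  exact lt_of_pow_lt_pow_left₀ 2 hr ((norm_sq_le_energy hgf).trans_lt h)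

lemma mem_L2s {f : V → V} (h : L2sigma f) :
    (memLp_V h.1).toLp f ∈ Pool.Agent.H303.DEE.L2s := by
  refine Metric.mem_closure_iff.2 fun ε hε => ?_
  obtain ⟨v, hv, hd⟩ := h.2 (ε ^ 2 / 2) (by positivity)
  refine ⟨(memLp_V (smooth_memLp hv)).toLp v, ⟨v, hv, MemLp.coeFn_toLp _⟩, ?_⟩
  rw [dist_eq_norm]
  refine norm_toLp_sub (smooth_memLp hv) h.1 hε.le (hd.trans_lt ?_)
  have : 0 < ε ^ 2 := by positivity
  linarith

/-- the class of `f` -/
noncomputable def cls (f : V → V) (h : L2sigma f) : Pool.Agent.H303.DEE.L2s :=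
  ⟨(memLp_V h.1).toLp f, mem_L2s h⟩

lemma energy_congr {f g : V → V} (h : f =ᵐ[mQ] g) : energy f = energy g := by
  refine integral_congr_ae ?_
  filter_upwards [h] with x hx
  rw [hx]

lemma inner_congr {f g : V → V} (h : f =ᵐ[mQ] g) (w : V → V) : inner f w = inner g w := by
  refine integral_congr_ae ?_
  filter_upwards [h] with x hx
  rw [hx]

lemma lh_congr {n : ℕ} {ν : ℝ} {α : Fin 3 → ℝ} {T : ℝ} {f g : V → V} {u : ℝ → V → V}
    {G : ℝ → V → Fin 3 → Fin 3 → ℝ} (h : f =ᵐ[mQ] g) (hu : IsLerayHopf n ν α T f u G) :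
    IsLerayHopf n ν α T g u G :=
  ⟨hu.meas_u, hu.meas_G, hu.l2_u, hu.l2_G, hu.divfree, hu.grad, fun φ hφ t ht => by
    rw [← inner_congr h]; exact hu.weak φ hφ t ht, fun t ht => by
    rw [← energy_congr h]; exact hu.energy_le t ht⟩

lemma glob {n : ℕ} (hn : Odd n) (h3 : 3 ≤ n) {ν : ℝ} (hν : 0 < ν) {α : Fin 3 → ℝ}
    (hα : ∀ j, α j ≠ 0) : Pool.Agent.H303.DEE.Glob n ν α := by
  intro u₀ h
  obtain ⟨v, p, h1, h2, -⟩ := Pool.Agent.H303.DEE.Odd.result hn h3 hν hα h.smooth h.per h.divfree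
  exact ⟨v, p, ⟨h1.smooth_u, h1.smooth_p, h1.per_u, h1.per_p, h1.divfree, h1.momentum⟩, h2⟩

/-- existence for all initial values in `L²_σ` -/
lemma exi {n : ℕ} (hn : Odd n) (h3 : 3 ≤ n) {ν : ℝ} (hν : 0 < ν) {α : Fin 3 → ℝ}
    (hα : ∀ j, α j ≠ 0) (T : ℝ) {f : V → V} (hf : L2sigma f) :
    ∃ (u : ℝ → V → V) (G : ℝ → V → Fin 3 → Fin 3 → ℝ), IsStrong n ν α T f u G := by
  have he : (memLp_V hf.1).toLp f =ᵐ[mQ] f := MemLp.coeFn_toLp _
  obtain ⟨u, G, h⟩ := Pool.Agent.H303.DEE.leray n ν α hν hn (glob hn h3 hν hα) T (cls f hf)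
  exact ⟨u, G, lh_congr he (lh_iff.2 h.1), h.2.mono fun _ hs => lh_iff.2 hs⟩

lemma h1_l2 {f : V → V} {g : V → Fin 3 → Fin 3 → ℝ} (h : H1sigma f g) : L2sigma f := by
  refine ⟨h.l2, fun ε hε => ?_⟩
  obtain ⟨v, hv, h1, -⟩ := s8 f g (h1_iff h) ε hε
  exact ⟨v, hv, h1⟩

/-- **Energy equality and uniqueness of Leray-Hopf solutions of the Navier-Stokes equations with
the dispersion `∑_j α_j ∂_j^n u`**, for every odd `n ≥ 3`, every viscosity `ν > 0` and all nonzero
`α₁, α₂, α₃`. -/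
theorem result {n : ℕ} (hn : Odd n) (h3 : 3 ≤ n) {ν : ℝ} (hν : 0 < ν) {α : Fin 3 → ℝ}
    (hα : ∀ j, α j ≠ 0) :
    SmoothData n ν α ∧ H1Data n ν α ∧ L2Data n ν α ∧ GenericData n ν α := by
  have h4 := t4 t0
  have h5 := t5 t0 t1 t3 h4
  have h6 := t6 t0 t1 t2 h5
  have k3 := s3 t0 h4 s1 (s2 t0)
  have k7 := s7 t0 t1 h4 h5 s1 k3 (s5 s8) s6
  have k9 := s9 t0 h4 k7 s8
  have hB := Pool.Agent.H303.DEG.globB hn h3 hν hα
  refine ⟨fun u₀ h => ?_, fun T u₀ g₀ h => ⟨fun u G hu => ?_, fun u u' G G' hu hu' => ?_, ?_⟩,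
    fun T f hf => ⟨exi hn h3 hν hα T hf, fun u G hu t ht => ?_⟩, ?_⟩
  · obtain ⟨v, p, hv, rfl⟩ := glob hn h3 hν hα u₀ h
    refine ⟨v, p, hv, rfl, fun T => ⟨lh_iff.2 (t9 t0 h4 n ν α v p T hn hv), fun u G hu => ?_,
      fun u G hu => ?_⟩⟩
    · have h7 := t7 t0 h4 h6 n ν α v p hν hn hv T u G (lh_iff.1 hu)
      exact ⟨h7.1, h7.2.1⟩
    · exact (t7 t0 h4 h6 n ν α v p hν hn hv T u G (lh_iff.1 hu)).2.2
  · exact (k9 n ν α hν hn hB T u₀ g₀ u G (h1_iff h) (lh_iff.1 hu)).1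
  · exact (k9 n ν α hν hn hB T u₀ g₀ u G (h1_iff h) (lh_iff.1 hu)).2 u' G' (lh_iff.1 hu')
  · obtain ⟨u, G, hu⟩ := exi hn h3 hν hα T (h1_l2 h)
    exact ⟨u, G, hu.1⟩
  · have he : f =ᵐ[mQ] (memLp_V hf.1).toLp f := (MemLp.coeFn_toLp _).symm
    have h := s10 k9 n ν α hν hn hB T (cls f hf) u G
      (strong_iff ⟨lh_congr he hu.1, hu.2⟩) t ht
    have h' : (1 / 2) * energy (u t) + ν * dissipation G t
      = (1 / 2) * energy ((memLp_V hf.1).toLp f) := h
    rw [← energy_congr he] at h'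
    exact h'
  · obtain ⟨𝒢, h1, -, h8, h9⟩ := t8 t0 h4 h6 n ν α hν hn (glob hn h3 hν hα)
    obtain ⟨U, hU, rfl⟩ := isGδ_iff_eq_iInter_nat.1 h1
    refine ⟨fun m => {f | ∃ h : L2sigma f, cls f h ∈ U m},
      fun m => ⟨fun f hf => hf.1, ?_⟩, fun m v hv => ?_, fun f hf T => ?_⟩
    · rintro f ⟨hf, hfU⟩
      obtain ⟨r, hr, hball⟩ := Metric.isOpen_iff.1 (hU m) _ hfU
      refine ⟨r ^ 2, by positivity, fun g hg hd => ⟨hg, hball ?_⟩⟩
      rw [Metric.mem_ball, Subtype.dist_eq, dist_eq_norm]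
      exact norm_toLp_sub hf.1 hg.1 hr.le hd
    · refine ⟨smooth_L2 hv, ?_⟩
      exact mem_iInter.1 (h8 (cls v (smooth_L2 hv)) ⟨v, hv, MemLp.coeFn_toLp (memLp_V (smooth_L2 hv).1)⟩) m
    · obtain ⟨hf0, -⟩ := hf 0
      have hF : cls f hf0 ∈ ⋂ m, U m :=
        mem_iInter.2 fun m => (hf m).2
      have he : f =ᵐ[mQ] (memLp_V hf0.1).toLp f := (MemLp.coeFn_toLp _).symm
      refine ⟨fun u G hu t ht => ?_, fun u u' G G' hu hu' => ?_, ?_⟩
      · have h := (h9 _ hF T u G (lh_iff.1 (lh_congr he hu))).1 t ht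
        have h' : (1 / 2) * energy (u t) + ν * dissipation G t
          = (1 / 2) * energy ((memLp_V hf0.1).toLp f) := h
        rw [← energy_congr he] at h'
        exact h'
      · exact (h9 _ hF T u G (lh_iff.1 (lh_congr he hu))).2 u' G' (lh_iff.1 (lh_congr he hu'))
      · obtain ⟨u, G, hu⟩ := exi hn h3 hν hα T hf0
        exact ⟨u, G, hu.1⟩

end Pool.Agent.Results.MP_a38b17_an.DispersiveEnergy
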