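import Pool.Agent.H305.EG.Rh
import Pool.Agent.H305.EG.Tj

/-!
# Loss of energy at the first singular time needs a supercritical inflow of energy

Let `(u, p)` be a smooth solution of the Navier-Stokes equations on `(0, T) × ℝ³`, all of whose spatial
derivatives are bounded and square integrable, locally uniformly in `t`. So `T` may be the first
singular time. For a point or a line `L` let `N_σ` be its `σ`-neighbourhood. The energy which flows into
`N_σ` during `(t₁, t₂)` minus the energy dissipated there is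
  `∫_{t₁}^{t₂} ∫_{N_σ} (- u · ∇(|u|² / 2 + p) - ν |∇u|²)`
  `= ∫_{t₁}^{t₂} (- ∫_{∂N_σ} (|u|² / 2 + p) u · n - ν ∫_{N_σ} |∇u|²)`.
The theorem: either `u(t)` converges in `L²` as `t → T` and the energy equality holds on `[s, T]`,
`1 / 2 ∫ |u(T)|² + ν ∫_s^T ∫ |∇u|² = 1 / 2 ∫ |u(s)|²`, where `u(T)` is the limit, or there is a singular
point `b` such that for each `K`
* the energy in the ball of radius `R` about `b` is more than `K R` at some time in `[T - R² / ν, T)`,
  for all small `R`,
* for `L = {b}` and for each line `L` through `b` and for all large `N`, at more than `N / 40` of the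
  scales `j` with `N / 64 - 1 < j < N` there are a `ρ` in `(2⁻ʲ⁻¹, 2⁻ʲ]` and a subcylinder
  `N_σ × (t₁, t₂)` of the parabolic cylinder `N_ρ × (T - ρ² / ν, T)` for which the net inflow is more
  than `K ρ`.
So energy can be lost at the time `T` only if the net inflow of energy into small subcylinders of the
parabolic cylinders is supercritical: for each `K` it is more than `K ρ` at a set of dyadic scales of
lower density at least `1 / 40`. The condition is one-sided: only the inflow counts, dissipation helps and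
outflow is free. The energy equality holds if, for each singular point `b`, the net inflow is `O(ρ)` at
`39 / 40` of the scales in a sequence of ranges `(2^(-N), 2^(-N / 64))`, for `{b}` or for a line through
`b`, with a constant which depends on `b`; at the other scales nothing is assumed.
This is the case `k = 0`; for `k = 1` the same holds with the weight `1 - dist(x, L)² / σ²` in `N_σ`.

Proof. (1) Energy estimate with the weight `z^(-3/4) φ(dist(x, L)² / z)`, `z = s + r² - t`, `ν = 1`. The
function `φ` is linear on `[0, 1]`, convex, and equal to `exp(- s / 4)` for `s ≥ 5 / 4`. The weight is a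
subsolution of the backward heat equation, and it is an average of the weights
`(1 - dist(x, L)² / ρ²)₊` over the `ρ` with `ρ² ≥ z` only, with densities that have one maximum in time.
At the scales where the net inflow is at most `K ρ` the second mean value theorem is used, and at the
other scales the net inflow is at most a constant times the maximum of the energy in the tube itself
(`Pool.Agent.H305.EG.Ah_up`). So the scaled energy is bounded by a sequence which decreases by the factor
`2^(-1/2)` at the former scales, as long as it is more than `C K`, and increases by at most `2¹⁶` at the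
latter ones. Hence it is at most `C K` at some scale in `(J, 64 J)`, if fewer than `57 J / 33` scales are
exceptional (`Pool.Agent.H305.EG.bd_ex`).
(2) A local regularity theorem in one cylinder: if the energy in the ball of radius `6 L z` is at most
`6 K L z`, `L = L(K)`, and the dissipation in the cylinder of radius `L z` and height `z² / 4` is at
most `c z`, then the point is regular. So, at a singular point with bounded scaled energy at the scale
`r`, the dissipation at this scale is at least `c r / L(K)`. By Vitali's covering lemma the singular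
points have a neighbourhood with small energy at all times near `T`, if the scaled energy is bounded
along a sequence of scales at each of them (with constants and scales which depend on the point).
(3) `u` is bounded off a neighbourhood of the singular points, also for large `|x|`. There `u(t)` is a
Cauchy family in `L²`: this follows from the local energy balance and from the equation tested with
`u(s)`, for times `s` with small `(T - s) ∫ |∇u(s)|²`.
-/

set_option autoImplicit false

open MeasureTheory Set Filter Topology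
open scoped ContDiff ENNReal

namespace Pool.Agent.Results.MP_a38b17_an.EnergyLossInflow

/-- The space `ℝ³`. -/
abbrev V : Type := Fin 3 → ℝ

/-- The partial derivative `∂ⱼ f`. -/
noncomputable def pd (j : Fin 3) (f : V → ℝ) : V → ℝ := fun x => fderiv ℝ f x (Pi.single j 1)

/-- Iterated partial derivatives `∂_{j_n} ⋯ ∂_{j_1} f`. -/
noncomputable def dd : List (Fin 3) → (V → ℝ) → V → ℝ
  | [], f => f
  | j :: l, f => dd l (pd j f)

/-- `f` is bounded by `C` and the integral of its square is at most `C`. -/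
def Bd (C : ℝ) (f : V → ℝ) : Prop :=
  (∀ x, |f x| ≤ C) ∧ ∫⁻ x, ENNReal.ofReal (f x ^ 2) ≤ ENNReal.ofReal C

/-- Smooth solutions of the Navier-Stokes equations with viscosity `ν` on `(0, T) × ℝ³`, such that
each spatial derivative of `u` and of `p` is bounded and square integrable in space, uniformly on
compact subintervals of `(0, T)`. -/
structure Sol (ν T : ℝ) (u : ℝ → V → V) (p : ℝ → V → ℝ) : Prop where
  smu : ∀ i, ContDiffOn ℝ ∞ (fun z : ℝ × V => u z.1 z.2 i) (Ioo 0 T ×ˢ univ)
  smp : ContDiffOn ℝ ∞ (fun z : ℝ × V => p z.1 z.2) (Ioo 0 T ×ˢ univ)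
  bdu : ∀ (l : List (Fin 3)) (s t : ℝ), 0 < s → t < T →
    ∃ C : ℝ, ∀ τ ∈ Icc s t, ∀ i, Bd C (dd l fun x => u τ x i)
  bdp : ∀ (l : List (Fin 3)) (s t : ℝ), 0 < s → t < T → ∃ C : ℝ, ∀ τ ∈ Icc s t, Bd C (dd l (p τ))
  div : ∀ t ∈ Ioo 0 T, ∀ x, ∑ i, pd i (fun y => u t y i) x = 0
  mom : ∀ t ∈ Ioo 0 T, ∀ x i, deriv (fun s => u s x i) t
      + ∑ j, u t x j * pd j (fun y => u t y i) x
    = ν * ∑ j, pd j (pd j fun y => u t y i) x - pd i (p t) x

/-- `∑ (f i · (x - b))²`. For orthonormal vectors `f i` this is the square of the distance of `x` to the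
affine subspace `L = {x | f i · (x - b) = 0 for all i}`. -/
noncomputable def dsq {m : ℕ} (f : Fin m → V) (b x : V) : ℝ := ∑ i, (∑ l, f i l * (x l - b l)) ^ 2

/-- The weight `(1 - dist(x, L)² / ρ²)^k` in the `ρ`-neighbourhood of `L`, and `0` outside. -/
noncomputable def weight {m : ℕ} (f : Fin m → V) (b : V) (ρ : ℝ) (k : ℕ) (x : V) : ℝ :=
  if dsq f b x < ρ ^ 2 then (1 - dsq f b x / ρ ^ 2) ^ k else 0

/-- The net inflow of energy with the weight `W`, that is
`∫ (- v · ∇(|v|² / 2 + q) - ν |∇v|²) W`. If `W` is `1` on `S` and `0` outside `S`, this is the inflow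
`- ∫_{∂S} (|v|² / 2 + q) v · n` minus the dissipation `ν ∫_S |∇v|²`, as `div v = 0`. -/
noncomputable def net (ν : ℝ) (v : V → V) (q : V → ℝ) (W : V → ℝ) : ℝ :=
  ∫ x, (-fderiv ℝ (fun y => (∑ i, v y i ^ 2) / 2 + q y) x (v x)
    - ν * ∑ i, ∑ j, pd j (fun y => v y i) x ^ 2) * W x

/-- An inflow of energy at the scale `2⁻ʲ`: there are a `ρ` in `(2⁻ʲ⁻¹, 2⁻ʲ]` and a subcylinder
`N_σ × (t₁, t₂)` of the parabolic cylinder `N_ρ × (T - ρ² / ν, T)` about `L` such that the net inflow of
energy during `(t₁, t₂)`, with the weight `(1 - dist(x, L)² / σ²)^k`, is more than `K ρ`. -/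
def Burst (K ν T : ℝ) (u : ℝ → V → V) (p : ℝ → V → ℝ) {m : ℕ} (f : Fin m → V) (b : V) (k j : ℕ) :
    Prop :=
  ∃ ρ ∈ Ioc ((1 / 2 : ℝ) ^ (j + 1)) ((1 / 2) ^ j), ∃ σ ∈ Ioc 0 ρ, ∃ t₁ t₂ : ℝ,
    0 < t₁ ∧ T - ρ ^ 2 / ν ≤ t₁ ∧ t₁ < t₂ ∧ t₂ < T ∧
    K * ρ < ∫ t in t₁..t₂, net ν (u t) (p t) (weight f b σ k)

/-- More than `N / 40` of the numbers `j` with `N / 64 - 1 < j < N` are bursts. -/
def Many (K ν T : ℝ) (u : ℝ → V → V) (p : ℝ → V → ℝ) {m : ℕ} (f : Fin m → V) (b : V) (k N : ℕ) :
    Prop :=
  N < 40 * {j | N < 64 * (j + 1) ∧ j < N ∧ Burst K ν T u p f b k j}.ncard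

lemma dd_eq (l : List (Fin 3)) : ∀ f : V → ℝ, dd l f = Pool.Agent.H305.TI.it l f := by
  induction l with
  | nil => intro f; rfl
  | cons j l ih =>
    intro f
    show dd l (pd j f) = _
    rw [ih, Pool.Agent.H305.TI.it_cons]
    rfl

lemma Sol.toHS {ν T : ℝ} (hν : 0 < ν) {u : ℝ → V → V} {p : ℝ → V → ℝ} (h : Sol ν T u p) :
    Pool.Agent.H305.OS.HS ν T u p := by
  refine ⟨hν, h.smu, h.smp, fun s t hs ht i => ?_, fun s t hs ht => ?_, h.div, ?_⟩
  · refine ⟨fun τ hτ => Pool.Agent.V1183.PM.J.slice (F := fun t x => u t x i) (h.smu i)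
      ⟨hs.trans_le hτ.1, hτ.2.trans_lt ht⟩, fun l => ?_⟩
    obtain ⟨C, hC⟩ := h.bdu l s t hs ht
    refine ⟨max C 0, le_max_right _ _, fun τ hτ => ?_⟩
    have h1 := hC τ hτ i
    rw [dd_eq] at h1
    exact ⟨fun x => (h1.1 x).trans (le_max_left _ _),
      h1.2.trans (ENNReal.ofReal_le_ofReal (le_max_left _ _))⟩
  · refine ⟨fun τ hτ => Pool.Agent.V1183.PM.J.slice (F := p) h.smp
      ⟨hs.trans_le hτ.1, hτ.2.trans_lt ht⟩, fun l => ?_⟩
    obtain ⟨C, hC⟩ := h.bdp l s t hs ht
    refine ⟨max C 0, le_max_right _ _, fun τ hτ => ?_⟩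
    have h1 := hC τ hτ
    rw [dd_eq] at h1
    exact ⟨fun x => (h1.1 x).trans (le_max_left _ _),
      h1.2.trans (ENNReal.ofReal_le_ofReal (le_max_left _ _))⟩
  · intro i t ht x
    have h1 := h.mom t ht x i
    have h2 : ν * Pool.Agent.H305.OS.lp (fun y => u t y i) x
        - Pool.Agent.H305.OS.nl (fun i y => u t y i) i x - H459R3.NS.pd i (p t) x
        = ν * ∑ j, pd j (pd j fun y => u t y i) x - ∑ j, u t x j * pd j (fun y => u t y i) x
          - pd i (p t) x := rfl
    rw [h2]
    linarith

lemma net_eq {ν T : ℝ} {u : ℝ → V → V} {p : ℝ → V → ℝ} (h : Pool.Agent.H305.OS.HS ν T u p) {t : ℝ}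
    (ht : t ∈ Ioo 0 T) (W : V → ℝ) : net ν (u t) (p t) W
      = Pool.Agent.H305.EG.net ν (Pool.Agent.H305.OS.cw u t) (p t) W := by
  unfold net Pool.Agent.H305.EG.net
  refine integral_congr_ae (Filter.Eventually.of_forall fun x => ?_)
  have h1 := Pool.Agent.H305.EF.wk_fderiv (w := Pool.Agent.H305.OS.cw u t)
      (fun i => (h.cw_HF ht i).sm) (h.p_HF ht).sm x
  show (-fderiv ℝ (fun y => (∑ i, u t y i ^ 2) / 2 + p t y) x (u t x)
    - ν * ∑ i, ∑ j, pd j (fun y => u t y i) x ^ 2) * W x = _
  have h2 : fderiv ℝ (fun y => (∑ i, u t y i ^ 2) / 2 + p t y) x (u t x)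
      = Pool.Agent.H305.PL.wk (Pool.Agent.H305.OS.cw u t) (p t) x := h1
  rw [h2]
  rfl

/-- The energy equality up to the time `T`: `u(t)` converges in `L²` to some `v` as `t → T`, and
`1 / 2 ∫ |v|² + ν ∫_s^T ∫ |∇u|² = 1 / 2 ∫ |u(s)|²` for all `s` in `(0, T)`. -/
def EnergyEquality (ν T : ℝ) (u : ℝ → V → V) : Prop :=
  ∃ v : V → V, (∀ i, Measurable fun x => v x i) ∧ (∀ i, Integrable fun x => v x i ^ 2) ∧
    Tendsto (fun t => ∫ x, ∑ i, (u t x i - v x i) ^ 2) (𝓝[<] T) (𝓝 0) ∧
    ∀ s ∈ Ioo 0 T, (∫ x, ∑ i, v x i ^ 2) / 2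
      + ν * (∫ t in s..T, ∫ x, ∑ i, ∑ j, pd j (fun y => u t y i) x ^ 2)
      = (∫ x, ∑ i, u s x i ^ 2) / 2

theorem result : ∀ (ν T : ℝ) (u : ℝ → V → V) (p : ℝ → V → ℝ), 0 < ν → 0 < T → Sol ν T u p →
    EnergyEquality ν T u ∨
    ∃ b : V, (∀ d > 0, ∀ M : ℝ, ∃ t ∈ Ioo (T - d) T, ∃ x, ∑ i, (x i - b i) ^ 2 < d ^ 2 ∧
        ∃ i, M < |u t x i|) ∧
      ∀ K : ℝ, (∃ R₀ : ℝ, 0 < R₀ ∧ ∀ R ∈ Ioo 0 R₀, ∃ t ∈ Ioo 0 T, T - R ^ 2 / ν ≤ t ∧
          K * R < ∫ x in {x | ∑ i, (x i - b i) ^ 2 < R ^ 2}, ∑ i, u t x i ^ 2) ∧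
        ∃ N₀ : ℕ, ∀ (m : ℕ) (f : Fin m → V), 2 ≤ m →
          (∀ i j, ∑ l, f i l * f j l = if i = j then 1 else 0) →
          ∀ N : ℕ, N₀ ≤ N → ∀ k : ℕ, k ≤ 1 → Many K ν T u p f b k N := by
  classical
  intro ν T u p hν hT h
  have hH := h.toHS hν
  by_cases hc : ∀ ε : ℝ, 0 < ε → ∃ δ : ℝ, 0 < δ ∧ ∀ s ∈ Ioo (T - δ) T, ∀ t ∈ Ioo (T - δ) T,
      Pool.Agent.H305.EG.d2 u s t ≤ ε
  · left
    obtain ⟨v, hv1, hv2, hv3, hv4⟩ := Pool.Agent.H305.EG.eneq hH hT hc
    refine ⟨v, hv1, hv2, hv3, fun s hs => ?_⟩
    have h1 := hv4 s hs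
    have e1 : ∫ t in s..T, ∫ x, ∑ i, ∑ j, pd j (fun y => u t y i) x ^ 2
        = ∫ τ in Ioc s T, Pool.Agent.H305.EG.DR u τ := by
      rw [intervalIntegral.integral_of_le hs.2.le, integral_Ioc_eq_integral_Ioo,
        integral_Ioc_eq_integral_Ioo]
      refine setIntegral_congr_fun measurableSet_Ioo fun τ hτ => ?_
      have hτ0 : τ ∈ Ioo 0 T := ⟨hs.1.trans hτ.1, hτ.2⟩
      have hw := fun i => hH.cw_HF hτ0 i
      unfold Pool.Agent.H305.EG.DR
      show ∫ x, Pool.Agent.H305.SL.gw (Pool.Agent.H305.OS.cw u τ) x = _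
      rw [integral_eq_lintegral_of_nonneg_ae
        (Filter.Eventually.of_forall fun x => Pool.Agent.H305.SL.gw_nonneg _ x)
        (Pool.Agent.H305.PL.gw_int hw).aestronglyMeasurable]
    have e2 : ∫ x, ∑ i, u s x i ^ 2 = Pool.Agent.H305.OS.en u s := by
      unfold Pool.Agent.H305.OS.en Pool.Agent.H305.OS.ip
      rw [← Pool.Agent.H305.SL.sum_int3 fun i => (hH.cw_HF hs i).ip_int (hH.cw_HF hs i)]
      congr 1
      funext x
      refine Finset.sum_congr rfl fun i _ => ?_
      rw [pow_two]
      rfl
    rw [e1, e2]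
    linarith
  · right
    obtain ⟨b, hb, hE, hQ⟩ := Pool.Agent.H305.EG.lossY hH hT hc
    refine ⟨b, ?_, ?_⟩
    · intro d hd M
      by_contra hcon
      push Not at hcon
      apply hb
      refine ⟨d / 2, |M|, by positivity, fun t ht x hx => ?_⟩
      rw [pi_norm_le_iff_of_nonneg (abs_nonneg M)]
      intro i
      have h1 : ∑ i, (x i - b i) ^ 2 < d ^ 2 := by
        have h4 : ∀ i, (x i - b i) ^ 2 < (d / 2) ^ 2 := by
          intro i
          rw [Metric.mem_ball] at hx
          have h5 := (dist_le_pi_dist x b i).trans_lt hx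
          rw [Real.dist_eq] at h5
          rw [← sq_abs]
          exact pow_lt_pow_left₀ h5 (abs_nonneg _) two_ne_zero
        simp only [Fin.sum_univ_three]
        nlinarith [h4 0, h4 1, h4 2]
      rw [Real.norm_eq_abs]
      exact (hcon t ⟨by linarith [ht.1], ht.2⟩ x h1 i).trans (le_abs_self M)
    · intro K
      obtain ⟨r₀, hr₀, hE⟩ := hE (2 * K)
      obtain ⟨N₁, hQ⟩ := hQ K
      refine ⟨⟨r₀, hr₀, fun R hR => ?_⟩, 64 * (N₁ + 13), ?_⟩
      · have hRr : R < r₀ := hR.2
        have hR1 := hR.1
        obtain ⟨t, ht, ht0, hlt⟩ := hE (R / 2) ⟨by positivity, by linarith⟩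
        have htI : t ∈ Ioo 0 T := ⟨ht0, ht.2⟩
        refine ⟨t, htI, ?_, ?_⟩
        · have h1 : (R / 2) ^ 2 / ν ≤ R ^ 2 / ν := by
            apply div_le_div_of_nonneg_right _ hν.le
            nlinarith
          linarith [ht.1]
        · have hi : Integrable fun x => ∑ i, u t x i ^ 2 := by
            refine integrable_finsetSum _ fun i _ => ?_
            refine ((hH.cw_HF htI i).ip_int (hH.cw_HF htI i)).congr
              (Filter.Eventually.of_forall fun x => ?_)
            simp only
            rw [pow_two]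
            rfl
          have hsub : Metric.ball b (R / 2) ⊆ {x | ∑ i, (x i - b i) ^ 2 < R ^ 2} := by
            intro x hx
            have h4 : ∀ i, (x i - b i) ^ 2 < (R / 2) ^ 2 := by
              intro i
              rw [Metric.mem_ball] at hx
              have h5 := (dist_le_pi_dist x b i).trans_lt hx
              rw [Real.dist_eq] at h5
              rw [← sq_abs]
              exact pow_lt_pow_left₀ h5 (abs_nonneg _) two_ne_zero
            show ∑ i, (x i - b i) ^ 2 < R ^ 2
            simp only [Fin.sum_univ_three]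
            nlinarith [h4 0, h4 1, h4 2]
          have h2 : 2 * K * (R / 2) < ∫ x in Metric.ball b (R / 2), ∑ i, u t x i ^ 2 := by
            rw [integral_eq_lintegral_of_nonneg_ae (Filter.Eventually.of_forall fun x =>
              Finset.sum_nonneg fun i _ => sq_nonneg _) hi.aestronglyMeasurable.restrict]
            by_contra hcon
            rw [not_lt] at hcon
            have hfin : ∫⁻ x in Metric.ball b (R / 2), ENNReal.ofReal (∑ i, u t x i ^ 2) ≠ ⊤ :=
              hi.integrableOn.lintegral_lt_top.ne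
            have h4 := ENNReal.ofReal_le_ofReal hcon
            rw [ENNReal.ofReal_toReal hfin] at h4
            exact absurd h4 (not_le.2 hlt)
          have h3 : ∫ x in Metric.ball b (R / 2), ∑ i, u t x i ^ 2
              ≤ ∫ x in {x | ∑ i, (x i - b i) ^ 2 < R ^ 2}, ∑ i, u t x i ^ 2 :=
            setIntegral_mono_set hi.integrableOn (Filter.Eventually.of_forall fun x =>
              Finset.sum_nonneg fun i _ => sq_nonneg _) hsub.eventuallyLE
          linarith
      · intro m f hm hf N hN k hk
        by_contra hcon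
        obtain ⟨J, hJ⟩ : ∃ J : ℕ, J = N / 64 := ⟨_, rfl⟩
        have hJ1 : 64 * J ≤ N := by omega
        have hJ2 : N < 64 * (J + 1) := by omega
        obtain ⟨S, hSe⟩ : ∃ S : Finset ℕ, S = (Finset.Ico J (64 * J)).filter
          (fun j => Burst K ν T u p f b k j) := ⟨_, rfl⟩
        have hS : 33 * S.card + 6 * J < 63 * J := by
          unfold Many at hcon
          have hfin : {j | N < 64 * (j + 1) ∧ j < N ∧ Burst K ν T u p f b k j}.Finite :=
            (finite_Iio N).subset fun j hj => hj.2.1
          have h1 : S.card ≤ {j | N < 64 * (j + 1) ∧ j < N ∧ Burst K ν T u p f b k j}.ncard := by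
            rw [← ncard_coe_finset]
            refine ncard_le_ncard ?_ hfin
            intro j hj
            have hj' : j ∈ S := hj
            rw [hSe, Finset.mem_filter, Finset.mem_Ico] at hj'
            exact ⟨by omega, by omega, hj'.2⟩
          omega
        refine hQ m f hm hf J S (by omega) hS ?_
        intro ρ hρ t t' h1 h2 h3 h4
        have hρ0 : 0 < ρ := Pool.Agent.H305.EG.AT_pos hρ
        have h6 : T - ρ ^ 2 / ν ≤ t := by
          have : T - t ≤ ρ ^ 2 / ν := by
            rw [le_div_iff₀ hν]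
            linarith
          linarith
        have hnet : ∀ W : V → ℝ, ∫ τ in t..t', net ν (u τ) (p τ) W
            = ∫ τ in Ioc t t', Pool.Agent.H305.EG.net ν (Pool.Agent.H305.OS.cw u τ) (p τ) W := by
          intro W
          rw [intervalIntegral.integral_of_le h2.le]
          refine setIntegral_congr_fun measurableSet_Ioc fun τ hτ => ?_
          exact net_eq hH ⟨h1.trans hτ.1, hτ.2.trans_lt h3⟩ _
        have key : ∀ σ ∈ Ioc 0 ρ, ∫ τ in Ioc t t', Pool.Agent.H305.EG.net ν
            (Pool.Agent.H305.OS.cw u τ) (p τ) (weight f b σ k) ≤ K * ρ := by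
          intro σ hσ
          obtain ⟨j, hj1, hj2, hj3, hj4⟩ := hρ
          by_contra h7
          apply hj3
          rw [hSe, Finset.mem_filter, Finset.mem_Ico]
          refine ⟨⟨hj1, hj2⟩, ρ, hj4, σ, hσ, t, t', h1, h6, h2, h3, ?_⟩
          rw [hnet]
          exact not_le.1 h7
        rcases (by omega : k = 0 ∨ k = 1) with h0 | h0
        · refine Pool.Agent.H305.EG.tent_le hH h1 h3 hρ0 fun σ hσ => ?_
          have h5 := key σ ⟨hσ.1, hσ.2.le⟩
          have e : weight f b σ k = (Pool.Agent.H305.EF.nbh f b σ).indicator 1 := by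
            funext x
            unfold weight
            rw [h0, pow_zero]
            by_cases hx : dsq f b x < σ ^ 2
            · rw [if_pos hx, indicator_of_mem (by exact hx)]
              rfl
            · rw [if_neg hx, indicator_of_notMem (by exact hx)]
          rw [← e]
          exact h5
        · have h5 := key ρ ⟨hρ0, le_rfl⟩
          have e : weight f b ρ k = fun x => max (1 - Pool.Agent.H305.EG.dsf f b x / ρ ^ 2) 0 := by
            funext x
            unfold weight
            rw [h0, pow_one]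
            have hρ2 : 0 < ρ ^ 2 := pow_pos hρ0 2
            have e : Pool.Agent.H305.EG.dsf f b x = dsq f b x := rfl
            by_cases hx : dsq f b x < ρ ^ 2
            · rw [if_pos hx, max_eq_left, e]
              rw [e, sub_nonneg, div_le_one hρ2]
              exact hx.le
            · rw [if_neg hx, max_eq_right]
              rw [e, sub_nonpos, one_le_div hρ2]
              exact not_lt.1 hx
          rw [← e]
          exact h5

end Pool.Agent.Results.MP_a38b17_an.EnergyLossInflow
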