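import Pool.Agent.H303.DEG.Glob
import Pool.Agent.H303.DEE.Leray
import Pool.Agent.H303.DEE.FGlue
import Pool.Agent.H303.DEE.FH1
import Pool.Agent.H303.DEE.FH2
import Pool.Agent.H303.DEE.FH3
import Pool.Agent.H303.DEE.FH4
import Pool.Agent.H303.DEE.FH5
import Pool.Agent.H303.DEE.FH6a
import Pool.Agent.H303.DEE.FH6b
import Pool.Agent.H303.DEE.FH6
import Pool.Agent.H303.DEE.FH7
import Pool.Agent.H303.DEE.FH8a
import Pool.Agent.H303.DEE.FH8
import Pool.Agent.H303.DEE.FH9a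
import Pool.Agent.H303.DEE.FH9
import Pool.Agent.H303.DEE.FH10
import Pool.Agent.H303.DEE.FP1
import Pool.Agent.H303.DEE.FP2
import Pool.Agent.H303.DEE.FP3
import Pool.Agent.H303.DEE.FP4
import Pool.Agent.H303.DEE.FP5
import Pool.Agent.H303.DEE.FP6
import Pool.Agent.H303.DEE.FP7
import Pool.Agent.H303.DEE.R1
import Pool.Agent.H303.DEE.R2
import Pool.Agent.H303.DEE.R3
import Pool.Agent.H303.DEE.G23
import Pool.Agent.H303.DEE.G5
import Pool.Agent.H303.DEE.G6
import Pool.Agent.H303.DEE.G78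
import Pool.Agent.H303.DEE.G9a
import Pool.Agent.H303.DEE.G9
import Pool.Agent.H303.DEE.G10
import Pool.Agent.H303.DEE.G11

/-!
# Energy equality of all weak solutions: Navier-Stokes equations with an odd dispersion, `n ≥ 5`

Let `n ≥ 5` be odd, `ν > 0` and `α₁, α₂, α₃` nonzero real numbers, of any size and sign. We consider
the three-dimensional periodic Navier-Stokes equations with the additional skew-adjoint term
`∑_j α_j ∂_j^n u` and a force `f ∈ L²(0, T; L²)`,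

  `∂ₜ u + (u · ∇) u + ∇ p = ν Δ u + ∑_j α_j ∂_j^n u + f`,  `div u = 0`,

and their weak solutions in the energy class `L^∞(0, T; L²) ∩ L²(0, T; H¹)` (`IsWeak`; no energy
inequality is assumed). For all initial values in `L²_σ`, all `T` and all such `f`, ALL of them
satisfy the energy equality at all times in `[0, T]`. In particular all Leray-Hopf solutions satisfy
the energy equality. For `f = 0` we also prove that such a solution exists.

The proof works with the Fourier coefficients of the solution. In the energy of the frequencies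
`|k| ≤ M` the flux is a sum over triads with at least one frequency larger than `M`. The resonance
function of a triad with the largest frequency `L` is at least `|L| ^ 3` except for few triads (at
most `C M ^ 2` frequencies of length at most `M` for each `L`:
`Pool.Agent.H226.DE.few_diag`, part of the theorem `MP_6bf1e5_an.OddDispersion`): the contribution
of these few is small by the dissipation, and that of the others after integration by parts in time.
-/

open MeasureTheory Set Filter Topology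
open scoped ContDiff ENNReal
open Pool.Agent.H303.DEE (V Q Periodic partialD Smooth Test)

namespace Pool.Agent.Results.MP_a38b17_an.EveryWeakSolution

/-! ### Definitions (`V`, `Q`, `Periodic`, `partialD`, `Smooth`, `Test` are in
`Pool.Agent.H303.DEE.Defs`) -/

/-- `∫_Q |v|²`. -/
noncomputable def energy (v : V → V) : ℝ := ∫ x in Q, ∑ i, v x i ^ 2

/-- `∫_0^t ∫_Q |G|²`. -/
noncomputable def dissipation (G : ℝ → V → Fin 3 → Fin 3 → ℝ) (t : ℝ) : ℝ :=
  ∫ s in (0 : ℝ)..t, ∫ x in Q, ∑ i, ∑ j, G s x i j ^ 2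

/-- `∫_Q v · w`. -/
noncomputable def inner (v w : V → V) : ℝ := ∫ x in Q, ∑ i, v x i * w x i

/-- The divergence of `v` is zero (in the sense of periodic distributions). -/
def DivFree (v : V → V) : Prop := ∀ ψ : V → ℝ, ContDiff ℝ ∞ ψ → Periodic ψ →
  ∫ x in Q, ∑ j, v x j * partialD 1 j ψ x = 0

/-- `g i j = ∂_j v_i` (in the sense of periodic distributions). -/
def WeakGrad (v : V → V) (g : V → Fin 3 → Fin 3 → ℝ) : Prop := ∀ ψ : V → ℝ, ContDiff ℝ ∞ ψ →
  Periodic ψ → ∀ i j, ∫ x in Q, v x i * partialD 1 j ψ x = -∫ x in Q, g x i j * ψ x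

/-- The integrand of the weak formulation, for the test field `φ`, at the time `s`:
`u · ∂ₜφ + (u ⊗ u) : ∇φ - ν G : ∇φ - ∑_j α_j u · ∂_j^n φ` (`n` is odd). -/
noncomputable def integrand (n : ℕ) (ν : ℝ) (α : Fin 3 → ℝ) (u : ℝ → V → V)
    (G : ℝ → V → Fin 3 → Fin 3 → ℝ) (φ : ℝ → V → V) (s : ℝ) (x : V) : ℝ :=
  (∑ i, u s x i * deriv (fun r => φ r x i) s)
    + (∑ i, ∑ j, u s x i * u s x j * partialD 1 j (fun y => φ s y i) x)
    - ν * (∑ i, ∑ j, G s x i j * partialD 1 j (fun y => φ s y i) x)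
    - ∑ i, ∑ j, α j * (u s x i * partialD n j (fun y => φ s y i) x)

/-- Forces `f ∈ L²(0, T; L²(Q))` (not necessarily with divergence zero). -/
structure Force (T : ℝ) (f : ℝ → V → V) : Prop where
  meas : Measurable fun z : ℝ × V => f z.1 z.2
  l2 : ∀ i, MemLp (fun z : ℝ × V => f z.1 z.2 i) 2 (volume.restrict (Icc 0 T ×ˢ Q))

/-- `u` is a weak solution in the energy class on `[0, T]` with the force `f` and the initial value
`u₀` of `∂ₜ uᵢ + ∑_j u_j ∂_j uᵢ = ν ∑_j ∂_j² uᵢ + ∑_j α_j ∂_j^n uᵢ - ∂ᵢ p + fᵢ`, `div u = 0`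
(`n` odd), periodic in `x` with the period cell `Q` (only the values in `Q` matter): `u(t) ∈ L²(Q)` for all
`t ∈ [0, T]`, bounded in `L²(Q)` on `[0, T]`, the gradient `G i j = ∂_j u_i` is in
`L²((0, T) × Q)`, the divergence is zero, and the equation holds in the sense of distributions
against test fields with divergence zero, between the times `0` and `t`, for all `t ∈ [0, T]` (in
particular `u` is weakly continuous in time). No energy inequality is assumed. -/
structure IsWeak (n : ℕ) (ν : ℝ) (α : Fin 3 → ℝ) (T : ℝ) (f : ℝ → V → V) (u₀ : V → V)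
    (u : ℝ → V → V) (G : ℝ → V → Fin 3 → Fin 3 → ℝ) : Prop where
  meas_u : Measurable fun z : ℝ × V => u z.1 z.2
  meas_G : Measurable fun z : ℝ × V => G z.1 z.2
  l2_u : ∀ t ∈ Icc 0 T, ∀ i, MemLp (fun x => u t x i) 2 (volume.restrict Q)
  bdd : ∃ E : ℝ, ∀ t ∈ Icc 0 T, energy (u t) ≤ E
  l2_G : ∀ i j, MemLp (fun z : ℝ × V => G z.1 z.2 i j) 2 (volume.restrict (Icc 0 T ×ˢ Q))
  divfree : ∀ t ∈ Icc 0 T, DivFree (u t)
  grad : ∀ᵐ t ∂(volume.restrict (Icc 0 T)), WeakGrad (u t) (G t)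
  weak : ∀ φ, Test φ → ∀ t ∈ Icc 0 T, inner (u t) (φ t) - inner u₀ (φ 0)
    = (∫ s in (0 : ℝ)..t, ∫ x in Q, integrand n ν α u G φ s x)
      + ∫ s in (0 : ℝ)..t, inner (f s) (φ s)

/-- The energy equality at the time `t`: the last term is the work `∫_0^t ∫_Q f · u`. -/
def EnergyEq (ν : ℝ) (f : ℝ → V → V) (u₀ : V → V) (u : ℝ → V → V)
    (G : ℝ → V → Fin 3 → Fin 3 → ℝ) (t : ℝ) : Prop :=
  (1 / 2) * energy (u t) + ν * dissipation G t
    = (1 / 2) * energy u₀ + ∫ s in (0 : ℝ)..t, inner (f s) (u s)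

/-- `f` is in the space `L²_σ`: it is square integrable in `Q` and a limit in `L²(Q)³` of smooth
periodic fields with divergence zero. -/
def L2sigma (f : V → V) : Prop := (∀ i, MemLp (fun x => f x i) 2 (volume.restrict Q)) ∧
  ∀ ε : ℝ, 0 < ε → ∃ v : V → V, Smooth v ∧ energy (f - v) ≤ ε

/-! ### The definitions above and those of the files with the proofs -/

lemma weak_iff {n : ℕ} {ν : ℝ} {α : Fin 3 → ℝ} {T : ℝ} {f : ℝ → V → V} {u₀ : V → V}
    {u : ℝ → V → V} {G : ℝ → V → Fin 3 → Fin 3 → ℝ} :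
    IsWeak n ν α T f u₀ u G ↔ Pool.Agent.H303.DEE.F.IsWeakF n ν α T f u₀ u G :=
  ⟨fun h => ⟨h.meas_u, h.meas_G, h.l2_u, h.bdd, h.l2_G, h.divfree, h.grad, h.weak⟩,
    fun h => ⟨h.meas_u, h.meas_G, h.l2_u, h.bdd, h.l2_G, h.divfree, h.grad, h.weak⟩⟩

/-- Leray-Hopf solutions are weak solutions in the energy class. -/
lemma weak_of_lh {n : ℕ} {ν : ℝ} (hν : 0 < ν) {α : Fin 3 → ℝ} {T : ℝ} {u₀ : V → V}
    {u : ℝ → V → V} {G : ℝ → V → Fin 3 → Fin 3 → ℝ}
    (h : Pool.Agent.H303.DEE.IsLerayHopf n ν α T u₀ u G) :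
    IsWeak n ν α T (fun _ _ => 0) u₀ u G := by
  refine ⟨h.meas_u, h.meas_G, h.l2_u, ⟨energy u₀, fun t ht => ?_⟩, h.l2_G, h.divfree, h.grad,
    fun φ hφ t ht => ?_⟩
  · have h1 := h.energy t ht
    have h2 : 0 ≤ ∫ s in (0 : ℝ)..t, ∫ x in Q, ∑ i, ∑ j, G s x i j ^ 2 :=
      intervalIntegral.integral_nonneg ht.1 fun s _ => integral_nonneg fun x =>
        Finset.sum_nonneg fun i _ => Finset.sum_nonneg fun j _ => sq_nonneg _
    have h3 : energy (u t) = ∫ x in Q, ∑ i, u t x i ^ 2 := rfl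
    have h4 : energy u₀ = ∫ x in Q, ∑ i, u₀ x i ^ 2 := rfl
    rw [h3, h4]
    nlinarith [mul_nonneg hν.le h2]
  · have h1 : ∀ s, inner (fun _ => 0) (φ s) = 0 := fun s => by simp [inner]
    have h2 : ∫ s in (0 : ℝ)..t, inner (fun _ => 0) (φ s) = 0 := by simp [h1]
    rw [h2, add_zero]
    exact h.weak φ hφ t ht

/-- the measure on the cell -/
noncomputable abbrev mQ : Measure V := volume.restrict Q

lemma memLp_V {f : V → V} (h : ∀ i, MemLp (fun x => f x i) 2 mQ) : MemLp f 2 mQ :=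
  memLp_pi_iff.2 h

lemma smooth_memLp {v : V → V} (h : Smooth v) (i : Fin 3) : MemLp (fun x => v x i) 2 mQ := by
  have hc : Continuous fun x => v x i := (contDiff_pi.1 h.smooth i).continuous
  refine (memLp_two_iff_integrable_sq hc.aestronglyMeasurable).2 ?_
  exact (hc.pow 2).continuousOn.integrableOn_compact isCompact_Icc

lemma norm_sq_le_energy {f : V → V} (h : ∀ i, MemLp (fun x => f x i) 2 mQ) :
    ‖(memLp_V h).toLp f‖ ^ 2 ≤ energy f := by
  have hV := memLp_V h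
  have h2 : ∀ i, Integrable (fun x => f x i ^ 2) mQ := fun i => (h i).integrable_sq
  have h1 : ‖hV.toLp f‖ ^ 2 = ∫ x, ‖f x‖ ^ 2 ∂mQ := by
    rw [Lp.norm_toLp, hV.eLpNorm_eq_integral_rpow_norm (by norm_num) (by norm_num)]
    have h3 : 0 ≤ ∫ x, ‖f x‖ ^ 2 ∂mQ := integral_nonneg fun x => by positivity
    simp only [ENNReal.toReal_ofNat, Real.rpow_ofNat]
    rw [ENNReal.toReal_ofReal (by positivity), ← Real.rpow_natCast, ← Real.rpow_mul h3]
    norm_num
  rw [h1]
  refine integral_mono ?_ (integrable_finsetSum _ fun i _ => h2 i) fun x => ?_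
  · exact (memLp_two_iff_integrable_sq_norm hV.1).1 hV
  · have h4 : ‖f x‖ ≤ Real.sqrt (∑ i, f x i ^ 2) := by
      rw [pi_norm_le_iff_of_nonneg (Real.sqrt_nonneg _)]
      intro i
      refine Real.le_sqrt_of_sq_le ?_
      rw [Real.norm_eq_abs, sq_abs]
      exact Finset.single_le_sum (f := fun i => f x i ^ 2) (fun j _ => sq_nonneg _)
        (Finset.mem_univ i)
    have h5 : 0 ≤ ∑ i, f x i ^ 2 := Finset.sum_nonneg fun i _ => sq_nonneg _
    calc ‖f x‖ ^ 2 ≤ Real.sqrt (∑ i, f x i ^ 2) ^ 2 := by gcongr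
      _ = _ := Real.sq_sqrt h5

lemma norm_toLp_sub {f g : V → V} (hf : ∀ i, MemLp (fun x => f x i) 2 mQ)
    (hg : ∀ i, MemLp (fun x => g x i) 2 mQ) {r : ℝ} (hr : 0 ≤ r) (h : energy (g - f) < r ^ 2) :
    ‖(memLp_V hg).toLp g - (memLp_V hf).toLp f‖ < r := by
  have hgf : ∀ i, MemLp (fun x => (g - f) x i) 2 mQ := fun i => (hg i).sub (hf i)
  have e : (memLp_V hg).toLp g - (memLp_V hf).toLp f = (memLp_V hgf).toLp (g - f) :=
    (MemLp.toLp_sub _ _).symm
  rw [e]
  exact lt_of_pow_lt_pow_left₀ 2 hr ((norm_sq_le_energy hgf).trans_lt h)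

lemma mem_L2s {f : V → V} (h : L2sigma f) :
    (memLp_V h.1).toLp f ∈ Pool.Agent.H303.DEE.L2s := by
  refine Metric.mem_closure_iff.2 fun ε hε => ?_
  obtain ⟨v, hv, hd⟩ := h.2 (ε ^ 2 / 2) (by positivity)
  refine ⟨(memLp_V (smooth_memLp hv)).toLp v, ⟨v, hv, MemLp.coeFn_toLp _⟩, ?_⟩
  rw [dist_eq_norm]
  refine norm_toLp_sub (smooth_memLp hv) h.1 hε.le (hd.trans_lt ?_)
  have : 0 < ε ^ 2 := by positivity
  linarith

/-- the class of `f` -/
noncomputable def cls (f : V → V) (h : L2sigma f) : Pool.Agent.H303.DEE.L2s :=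
  ⟨(memLp_V h.1).toLp f, mem_L2s h⟩

lemma energy_congr {f g : V → V} (h : f =ᵐ[mQ] g) : energy f = energy g := by
  refine integral_congr_ae ?_
  filter_upwards [h] with x hx
  rw [hx]

lemma inner_congr {f g : V → V} (h : f =ᵐ[mQ] g) (w : V → V) : inner f w = inner g w := by
  refine integral_congr_ae ?_
  filter_upwards [h] with x hx
  rw [hx]

lemma weak_congr {n : ℕ} {ν : ℝ} {α : Fin 3 → ℝ} {T : ℝ} {k : ℝ → V → V} {f g : V → V}
    {u : ℝ → V → V} {G : ℝ → V → Fin 3 → Fin 3 → ℝ} (h : f =ᵐ[mQ] g)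
    (hu : IsWeak n ν α T k f u G) : IsWeak n ν α T k g u G :=
  ⟨hu.meas_u, hu.meas_G, hu.l2_u, hu.bdd, hu.l2_G, hu.divfree, hu.grad, fun φ hφ t ht => by
    rw [← inner_congr h]; exact hu.weak φ hφ t ht⟩

lemma glob {n : ℕ} (hn : Odd n) (h3 : 3 ≤ n) {ν : ℝ} (hν : 0 < ν) {α : Fin 3 → ℝ}
    (hα : ∀ j, α j ≠ 0) : Pool.Agent.H303.DEE.Glob n ν α := by
  intro u₀ h
  obtain ⟨v, p, h1, h2, -⟩ := Pool.Agent.H303.DEE.Odd.result hn h3 hν hα h.smooth h.per h.divfree
  exact ⟨v, p, ⟨h1.smooth_u, h1.smooth_p, h1.per_u, h1.per_p, h1.divfree, h1.momentum⟩, h2⟩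

open Pool.Agent.H303.DEE Pool.Agent.H303.DEE.F in
lemma g11' : G11 := by
  have k6 : H6 := h6 (h6b h6a)
  have k8 : H8 := h8 h8a
  have l10 : G10 := g10 h1 g2 (g9 (g9a g3 h4 h5 k6 h7 k8))
  have l5 : G5 := g5 p2 p3 p4
  have l6 : G6 := g6 p1 p3
  have l7a : G7a := g7a p1
  exact g11 l10 p1 (r3 r2) l6 (g7 p1 p4 l5 l6 l7a) (g8 p1 l7a)

/-- **All weak solutions in the energy class of the periodic Navier-Stokes equations with the
dispersion `∑_j α_j ∂_j^n u` and a force in `L²(0, T; L²)` satisfy the energy equality**, for every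
odd `n ≥ 5`, every viscosity `ν > 0`, all nonzero `α₁, α₂, α₃`, all `T` and all initial values in
`L²_σ`; without a force such solutions exist. -/
theorem result {n : ℕ} (hn : Odd n) (h5 : 5 ≤ n) {ν : ℝ} (hν : 0 < ν) {α : Fin 3 → ℝ}
    (hα : ∀ j, α j ≠ 0) (T : ℝ) {u₀ : V → V} (hu₀ : L2sigma u₀) :
    (∀ f : ℝ → V → V, Force T f → ∀ (u : ℝ → V → V) (G : ℝ → V → Fin 3 → Fin 3 → ℝ),
      IsWeak n ν α T f u₀ u G → ∀ t ∈ Icc 0 T, EnergyEq ν f u₀ u G t) ∧
    ∃ (u : ℝ → V → V) (G : ℝ → V → Fin 3 → Fin 3 → ℝ),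
      IsWeak n ν α T (fun _ _ => 0) u₀ u G := by
  have he : (memLp_V hu₀.1).toLp u₀ =ᵐ[mQ] u₀ := MemLp.coeFn_toLp _
  refine ⟨fun f hf u G hu t ht => ?_, ?_⟩
  · obtain ⟨C, hC, hF⟩ := Pool.Agent.H303.DEE.F.few_gg hn h5 hα
    have h := g11' n ν α C hν hn hC hF T f (cls u₀ hu₀) u G ⟨hf.meas, hf.l2⟩
      (weak_iff.1 (weak_congr he.symm hu)) t ht
    have h1 : (1 / 2) * energy (u t) + ν * dissipation G t
        = (1 / 2) * energy ((memLp_V hu₀.1).toLp u₀) + ∫ s in (0 : ℝ)..t, inner (f s) (u s) := h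
    unfold EnergyEq
    rw [h1, energy_congr he]
  · obtain ⟨u, G, h⟩ := Pool.Agent.H303.DEE.leray n ν α hν hn
      (glob hn (le_trans (by norm_num) h5) hν hα) T (cls u₀ hu₀)
    exact ⟨u, G, weak_congr he (weak_of_lh hν h.1)⟩

end Pool.Agent.Results.MP_a38b17_an.EveryWeakSolution
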